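import Pool.Agent.R342.Conn.Defs

/-! Kernel computation, part 1: `1 ≤ t < 620`. -/

set_option autoImplicit false

namespace Pool.Agent.R342.Conn

theorem c1_1 : chk 1 136 = true := by decide +kernel

theorem c1_2 : chk 137 149 = true := by decide +kernel

theorem c1_3 : chk 286 165 = true := by decide +kernel

theorem c1_4 : chk 451 169 = true := by decide +kernel

end Pool.Agent.R342.Conn
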