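import Pool.Agent.R342.Conn.Defs

/-! Kernel computation, part 2: `620 ≤ t < 1721`. -/

set_option autoImplicit false

namespace Pool.Agent.R342.Conn

theorem c2_1 : chk 620 185 = true := by decide +kernel

theorem c2_2 : chk 805 219 = true := by decide +kernel

theorem c2_3 : chk 1024 272 = true := by decide +kernel

theorem c2_4 : chk 1296 425 = true := by decide +kernel

end Pool.Agent.R342.Conn
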