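import Pool.Agent.R342.Conn.Defs

/-! Kernel computation, part 3: `1721 ≤ t < 4288`. -/

set_option autoImplicit false

namespace Pool.Agent.R342.Conn

theorem c3_1 : chk 1721 496 = true := by decide +kernel

theorem c3_2 : chk 2217 531 = true := by decide +kernel

theorem c3_3 : chk 2748 702 = true := by decide +kernel

theorem c3_4 : chk 3450 838 = true := by decide +kernel

end Pool.Agent.R342.Conn
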