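import Pool.Agent.R342.Conn.Defs

/-! Kernel computation, part 4: `4288 ≤ t < 12517`. -/

set_option autoImplicit false

namespace Pool.Agent.R342.Conn

theorem c4_1 : chk 4288 1434 = true := by decide +kernel

theorem c4_2 : chk 5722 1789 = true := by decide +kernel

theorem c4_3 : chk 7511 2229 = true := by decide +kernel

theorem c4_4 : chk 9740 2777 = true := by decide +kernel

end Pool.Agent.R342.Conn
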