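import Pool.Agent.R342.Conn.Defs

/-! Kernel computation, part 5: `12517 ≤ t < 36791`. -/

set_option autoImplicit false

namespace Pool.Agent.R342.Conn

theorem c5_1 : chk 12517 3940 = true := by decide +kernel

theorem c5_2 : chk 16457 4937 = true := by decide +kernel

theorem c5_3 : chk 21394 6728 = true := by decide +kernel

theorem c5_4 : chk 28122 8669 = true := by decide +kernel

end Pool.Agent.R342.Conn
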