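import Pool.Agent.R342.Conn.Defs

/-! Kernel computation, part 6: `36791 ≤ t < 108524`. -/

set_option autoImplicit false

namespace Pool.Agent.R342.Conn

theorem c6_1 : chk 36791 11391 = true := by decide +kernel

theorem c6_2 : chk 48182 15134 = true := by decide +kernel

theorem c6_3 : chk 63316 19745 = true := by decide +kernel

theorem c6_4 : chk 83061 25463 = true := by decide +kernel

end Pool.Agent.R342.Conn
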