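import Pool.Agent.R342.Conn.Defs

/-! Kernel computation, part 7: `108524 ≤ t < 318844`. -/

set_option autoImplicit false

namespace Pool.Agent.R342.Conn

theorem c7_1 : chk 108524 33559 = true := by decide +kernel

theorem c7_2 : chk 142083 43985 = true := by decide +kernel

theorem c7_3 : chk 186068 57302 = true := by decide +kernel

theorem c7_4 : chk 243370 75474 = true := by decide +kernel

end Pool.Agent.R342.Conn
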