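import Pool.Agent.R342.Conn.Defs

/-! Kernel computation, part 8: `318844 ≤ t < 556823`. -/

set_option autoImplicit false

namespace Pool.Agent.R342.Conn

theorem c8_1 : chk 318844 98809 = true := by decide +kernel

theorem c8_2 : chk 417653 129086 = true := by decide +kernel

theorem c8_3 : chk 546739 10084 = true := by decide +kernel

end Pool.Agent.R342.Conn
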