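import Pool.Agent.R342.Conn.Basic
import Pool.Agent.R342.Conn.P1
import Pool.Agent.R342.Conn.P2
import Pool.Agent.R342.Conn.P3
import Pool.Agent.R342.Conn.P4
import Pool.Agent.R342.Conn.P5
import Pool.Agent.R342.Conn.P6
import Pool.Agent.R342.Conn.P7
import Pool.Agent.R342.Conn.P8

/-! All parts of the computation together. -/

set_option autoImplicit false

namespace Pool.Agent.R342.Conn

theorem descent (t : ℕ) (h1 : 1 ≤ t) (h2 : t < 556823) : ∃ i : ℕ, st^[i + 1] (nn t) < nn t := by
  rcases Nat.lt_or_ge t 137 with h | h
  · exact chk_sound 1 136 c1_1 t (by omega) (by omega)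
  clear h1; have h1 := h; clear h
  rcases Nat.lt_or_ge t 286 with h | h
  · exact chk_sound 137 149 c1_2 t (by omega) (by omega)
  clear h1; have h1 := h; clear h
  rcases Nat.lt_or_ge t 451 with h | h
  · exact chk_sound 286 165 c1_3 t (by omega) (by omega)
  clear h1; have h1 := h; clear h
  rcases Nat.lt_or_ge t 620 with h | h
  · exact chk_sound 451 169 c1_4 t (by omega) (by omega)
  clear h1; have h1 := h; clear h
  rcases Nat.lt_or_ge t 805 with h | h
  · exact chk_sound 620 185 c2_1 t (by omega) (by omega)
  clear h1; have h1 := h; clear h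
  rcases Nat.lt_or_ge t 1024 with h | h
  · exact chk_sound 805 219 c2_2 t (by omega) (by omega)
  clear h1; have h1 := h; clear h
  rcases Nat.lt_or_ge t 1296 with h | h
  · exact chk_sound 1024 272 c2_3 t (by omega) (by omega)
  clear h1; have h1 := h; clear h
  rcases Nat.lt_or_ge t 1721 with h | h
  · exact chk_sound 1296 425 c2_4 t (by omega) (by omega)
  clear h1; have h1 := h; clear h
  rcases Nat.lt_or_ge t 2217 with h | h
  · exact chk_sound 1721 496 c3_1 t (by omega) (by omega)
  clear h1; have h1 := h; clear h
  rcases Nat.lt_or_ge t 2748 with h | h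
  · exact chk_sound 2217 531 c3_2 t (by omega) (by omega)
  clear h1; have h1 := h; clear h
  rcases Nat.lt_or_ge t 3450 with h | h
  · exact chk_sound 2748 702 c3_3 t (by omega) (by omega)
  clear h1; have h1 := h; clear h
  rcases Nat.lt_or_ge t 4288 with h | h
  · exact chk_sound 3450 838 c3_4 t (by omega) (by omega)
  clear h1; have h1 := h; clear h
  rcases Nat.lt_or_ge t 5722 with h | h
  · exact chk_sound 4288 1434 c4_1 t (by omega) (by omega)
  clear h1; have h1 := h; clear h
  rcases Nat.lt_or_ge t 7511 with h | h
  · exact chk_sound 5722 1789 c4_2 t (by omega) (by omega)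
  clear h1; have h1 := h; clear h
  rcases Nat.lt_or_ge t 9740 with h | h
  · exact chk_sound 7511 2229 c4_3 t (by omega) (by omega)
  clear h1; have h1 := h; clear h
  rcases Nat.lt_or_ge t 12517 with h | h
  · exact chk_sound 9740 2777 c4_4 t (by omega) (by omega)
  clear h1; have h1 := h; clear h
  rcases Nat.lt_or_ge t 16457 with h | h
  · exact chk_sound 12517 3940 c5_1 t (by omega) (by omega)
  clear h1; have h1 := h; clear h
  rcases Nat.lt_or_ge t 21394 with h | h
  · exact chk_sound 16457 4937 c5_2 t (by omega) (by omega)
  clear h1; have h1 := h; clear h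
  rcases Nat.lt_or_ge t 28122 with h | h
  · exact chk_sound 21394 6728 c5_3 t (by omega) (by omega)
  clear h1; have h1 := h; clear h
  rcases Nat.lt_or_ge t 36791 with h | h
  · exact chk_sound 28122 8669 c5_4 t (by omega) (by omega)
  clear h1; have h1 := h; clear h
  rcases Nat.lt_or_ge t 48182 with h | h
  · exact chk_sound 36791 11391 c6_1 t (by omega) (by omega)
  clear h1; have h1 := h; clear h
  rcases Nat.lt_or_ge t 63316 with h | h
  · exact chk_sound 48182 15134 c6_2 t (by omega) (by omega)
  clear h1; have h1 := h; clear h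
  rcases Nat.lt_or_ge t 83061 with h | h
  · exact chk_sound 63316 19745 c6_3 t (by omega) (by omega)
  clear h1; have h1 := h; clear h
  rcases Nat.lt_or_ge t 108524 with h | h
  · exact chk_sound 83061 25463 c6_4 t (by omega) (by omega)
  clear h1; have h1 := h; clear h
  rcases Nat.lt_or_ge t 142083 with h | h
  · exact chk_sound 108524 33559 c7_1 t (by omega) (by omega)
  clear h1; have h1 := h; clear h
  rcases Nat.lt_or_ge t 186068 with h | h
  · exact chk_sound 142083 43985 c7_2 t (by omega) (by omega)
  clear h1; have h1 := h; clear h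
  rcases Nat.lt_or_ge t 243370 with h | h
  · exact chk_sound 186068 57302 c7_3 t (by omega) (by omega)
  clear h1; have h1 := h; clear h
  rcases Nat.lt_or_ge t 318844 with h | h
  · exact chk_sound 243370 75474 c7_4 t (by omega) (by omega)
  clear h1; have h1 := h; clear h
  rcases Nat.lt_or_ge t 417653 with h | h
  · exact chk_sound 318844 98809 c8_1 t (by omega) (by omega)
  clear h1; have h1 := h; clear h
  rcases Nat.lt_or_ge t 546739 with h | h
  · exact chk_sound 417653 129086 c8_2 t (by omega) (by omega)
  clear h1; have h1 := h; clear h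
  exact chk_sound 546739 10084 c8_3 t (by omega) (by omega)

end Pool.Agent.R342.Conn
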