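/-!
# Kernel computation for the map `y ↦ y (1 - y)` modulo `1113643`

With `p = 1113643` put `nn y = y (p + 1 - y)`; this is symmetric under `y ↦ p + 1 - y` and increasing
for `y ≤ (p + 1) / 2`. The function `chk a n` verifies for all `t` with `a ≤ t < a + n` that the orbit of `t`
contains after at least one step an element `y` with `nn y < nn t`.
-/

set_option autoImplicit false

namespace Pool.Agent.R342.Conn

/-- apply a function; a constant of its own, so that the evaluation returns to the outer loop -/
def app (f : Nat → Bool) (x : Nat) : Bool := f x

/-- iterates `st` from `G` until the value is less than `T` -/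
noncomputable def go (T : Nat) (fuel : Nat) : Nat → Bool :=
  Nat.rec (motive := fun _ => Nat → Bool) (fun _ => false)
    (fun _ ih G =>
      Bool.rec (motive := fun _ => Bool) true
       ((fun G => Bool.rec (motive := fun _ => Bool) true
        ((fun G => Bool.rec (motive := fun _ => Bool) true
          ((fun G => Bool.rec (motive := fun _ => Bool) true
           (app ih (Nat.mul (Nat.mod G 1113643) (Nat.sub 1113644 (Nat.mod G 1113643)))) (Nat.ble T G))
           (Nat.mul (Nat.mod G 1113643) (Nat.sub 1113644 (Nat.mod G 1113643)))) (Nat.ble T G))
           (Nat.mul (Nat.mod G 1113643) (Nat.sub 1113644 (Nat.mod G 1113643)))) (Nat.ble T G))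
           (Nat.mul (Nat.mod G 1113643) (Nat.sub 1113644 (Nat.mod G 1113643)))) (Nat.ble T G)) fuel

/-- the check for `t = a, ..., a + n - 1` -/
noncomputable def chk (a : Nat) (n : Nat) : Bool :=
  Nat.rec (motive := fun _ => Bool) true
    (fun k ih => cond ((fun T => go T 600 (Nat.mul (Nat.mod T 1113643)
      (Nat.sub 1113644 (Nat.mod T 1113643)))) (Nat.mul (Nat.add a k) (Nat.sub 1113644 (Nat.add a k))))
      ih false) n

end Pool.Agent.R342.Conn
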