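import Mathlib
import Pool.Agent.R342.Conn.Defs

/-!
# The meaning of the check `chk`
-/

set_option autoImplicit false

namespace Pool.Agent.R342.Conn

/-- `y (p + 1 - y)` for the natural number `y`, `p = 1113643` -/
def nn (y : ℕ) : ℕ := Nat.mul y (Nat.sub 1113644 y)

/-- one step of the map in the coordinate `nn` -/
def st (G : ℕ) : ℕ := nn (Nat.mod G 1113643)

theorem go_succ (T n G : ℕ) : go T (n + 1) G =
    cond (Nat.ble T G) (cond (Nat.ble T (st G)) (cond (Nat.ble T (st (st G)))
      (cond (Nat.ble T (st (st (st G)))) (go T n (st (st (st (st G))))) true) true) true) true := by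
  show Bool.rec (motive := fun _ => Bool) true _ (Nat.ble T G) = _
  cases h : Nat.ble T G
  · rfl
  · simp only [cond_true]
    show Bool.rec (motive := fun _ => Bool) true _ (Nat.ble T (st G)) = _
    cases h : Nat.ble T (st G)
    · rfl
    · simp only [cond_true]
      show Bool.rec (motive := fun _ => Bool) true _ (Nat.ble T (st (st G))) = _
      cases h : Nat.ble T (st (st G))
      · rfl
      · simp only [cond_true]
        show Bool.rec (motive := fun _ => Bool) true _ (Nat.ble T (st (st (st G)))) = _
        cases h : Nat.ble T (st (st (st G)))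
        · rfl
        · rfl

theorem lt_of_ble_false {T G : ℕ} (h : Nat.ble T G = false) : G < T := by
  by_contra hc
  have : Nat.ble T G = true := Nat.ble_eq.mpr (not_lt.mp hc)
  rw [h] at this
  exact Bool.false_ne_true this

theorem go_sound (T : ℕ) : ∀ (n G : ℕ), go T n G = true → ∃ i : ℕ, st^[i] G < T := by
  intro n
  induction n with
  | zero => intro G h; exact absurd h (by simp [go])
  | succ n ih =>
    intro G h
    rw [go_succ] at h
    cases h0 : Nat.ble T G with
    | false => exact ⟨0, lt_of_ble_false h0⟩
    | true =>
      cases h1 : Nat.ble T (st G) with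
      | false => exact ⟨1, lt_of_ble_false h1⟩
      | true =>
        cases h2 : Nat.ble T (st (st G)) with
        | false => exact ⟨2, lt_of_ble_false h2⟩
        | true =>
          cases h3 : Nat.ble T (st (st (st G))) with
          | false => exact ⟨3, lt_of_ble_false h3⟩
          | true =>
            rw [h0, h1, h2, h3] at h
            simp only [cond_true] at h
            obtain ⟨i, hi⟩ := ih _ h
            exact ⟨i + 4, by simpa [Function.iterate_add_apply] using hi⟩

theorem chk_succ (a n : ℕ) : chk a (n + 1) =
    cond (go (nn (a + n)) 600 (st (nn (a + n)))) (chk a n) false := rfl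

/-- the meaning of the check -/
theorem chk_sound (a : ℕ) : ∀ n : ℕ, chk a n = true → ∀ t : ℕ, a ≤ t → t < a + n →
    ∃ i : ℕ, st^[i + 1] (nn t) < nn t := by
  intro n
  induction n with
  | zero => intro _ t h1 h2; omega
  | succ n ih =>
    intro h t h1 h2
    rw [chk_succ] at h
    cases hg : go (nn (a + n)) 600 (st (nn (a + n))) with
    | false => rw [hg] at h; simp at h
    | true =>
      rw [hg] at h
      simp only [cond_true] at h
      rcases Nat.lt_or_ge t (a + n) with h3 | h3
      · exact ih h t h1 h3
      · obtain rfl : t = a + n := by omega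
        obtain ⟨i, hi⟩ := go_sound _ _ _ hg
        exact ⟨i, by simpa [Function.iterate_succ_apply] using hi⟩

end Pool.Agent.R342.Conn
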