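import Mathlib
import Pool.Agent.R342.Conn.All

/-!
# All orbits of `y ↦ y (1 - y)` on `ZMod 1113643` reach `0`
-/

set_option autoImplicit false

namespace Pool.Agent.R342.Conn

/-- the modulus -/
abbrev P : ℕ := 1113643

/-- the map -/
def h (y : ZMod P) : ZMod P := y * (1 - y)

theorem castP : ((1113643 : ℕ) : ZMod P) = 0 := by
  exact ZMod.natCast_self P

theorem cast_nn (t : ℕ) (ht : t ≤ 1113644) : ((nn t : ℕ) : ZMod P) = h (t : ZMod P) := by
  have e : nn t = t * (1113644 - t) := rfl
  rw [e, h]
  push_cast [Nat.cast_sub ht]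
  have : (1113644 : ZMod P) = 1 := by
    have h1 : ((1113644 : ℕ) : ZMod P) = ((1113643 : ℕ) : ZMod P) + 1 := by norm_num
    rw [castP, zero_add] at h1
    exact_mod_cast h1
  rw [this]

theorem cast_st (G : ℕ) : ((st G : ℕ) : ZMod P) = h (G : ZMod P) := by
  have e : st G = nn (G % 1113643) := rfl
  rw [e, cast_nn _ (by have := Nat.mod_lt G (show 0 < 1113643 by norm_num); omega)]
  congr 1
  exact ZMod.natCast_mod G P

theorem cast_st_iter (i G : ℕ) : ((st^[i] G : ℕ) : ZMod P) = h^[i] (G : ZMod P) := by
  induction i generalizing G with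
  | zero => rfl
  | succ i ih => rw [Function.iterate_succ_apply, ih, cast_st, Function.iterate_succ_apply]

/-- the orbit of `y` reaches `0` -/
def R (y : ZMod P) : Prop := ∃ k : ℕ, h^[k] y = 0

theorem R_of_iter {y : ZMod P} (i : ℕ) (hy : R (h^[i] y)) : R y := by
  obtain ⟨k, hk⟩ := hy
  exact ⟨k + i, by rw [Function.iterate_add_apply]; exact hk⟩

theorem R_step {y : ZMod P} (hy : R y) : R (h y) := by
  obtain ⟨k, hk⟩ := hy
  refine ⟨k, ?_⟩
  rw [← Function.iterate_succ_apply, Function.iterate_succ_apply', hk]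
  simp [h]

theorem R_symm {y z : ZMod P} (hyz : h y = h z) (hy : R y) : R z := by
  have h1 := R_step hy
  rw [hyz] at h1
  exact R_of_iter 1 h1

theorem h_mirror (m m' : ℕ) (e : m + m' = 1113644) : h (m : ZMod P) = h (m' : ZMod P) := by
  have h1 : ((m + m' : ℕ) : ZMod P) = 1 := by
    rw [e]
    have h1 : ((1113644 : ℕ) : ZMod P) = ((1113643 : ℕ) : ZMod P) + 1 := by norm_num
    rw [h1, castP, zero_add]
  push_cast at h1
  have h2 : (m : ZMod P) = 1 - m' := by rw [← h1]; ring
  rw [h2, h, h]; ring

theorem nn_mono {s t : ℕ} (h1 : t ≤ s) (h2 : s ≤ 556822) : nn t ≤ nn s := by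
  have e1 : nn t = t * (1113644 - t) := rfl
  have e2 : nn s = s * (1113644 - s) := rfl
  rw [e1, e2]
  obtain ⟨d, rfl⟩ := Nat.exists_eq_add_of_le h1
  obtain ⟨r, hr⟩ := Nat.exists_eq_add_of_le (show t + d ≤ 1113644 by omega)
  have h3 : 1113644 - t = d + r := by omega
  have h4 : 1113644 - (t + d) = r := by omega
  rw [h3, h4]
  have h5 : t ≤ r := by omega
  nlinarith [Nat.mul_le_mul_right d h5]

theorem R_half : ∀ t : ℕ, 1 ≤ t → t < 556823 → R (t : ZMod P) := by
  intro t
  induction t using Nat.strong_induction_on with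
  | _ t ih =>
    intro h1 h2
    obtain ⟨i, hi⟩ := descent t h1 h2
    rw [Function.iterate_succ_apply'] at hi
    set m : ℕ := st^[i] (nn t) % 1113643 with hm
    have hst : st (st^[i] (nn t)) = nn m := rfl
    rw [hst] at hi
    have hmlt : m < 1113643 := Nat.mod_lt _ (by norm_num)
    have hmc : (m : ZMod P) = h^[i + 1] (t : ZMod P) := by
      have e1 : (m : ZMod P) = ((st^[i] (nn t) : ℕ) : ZMod P) := ZMod.natCast_mod _ P
      rw [e1, cast_st_iter, cast_nn t (by omega), ← Function.iterate_succ_apply]
    apply R_of_iter (i + 1)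
    rw [← hmc]
    rcases Nat.eq_zero_or_pos m with h0 | hpos
    · exact ⟨0, by simp [h0]⟩
    · rcases Nat.lt_or_ge m 556823 with h3 | h3
      · have hlt : m < t := by
          by_contra hc
          exact absurd hi (not_lt.mpr (nn_mono (not_lt.mp hc) (by omega)))
        exact ih m hlt hpos h3
      · have hsym : nn (1113644 - m) = nn m := by
          have e1 : nn (1113644 - m) = (1113644 - m) * (1113644 - (1113644 - m)) := rfl
          have e2 : nn m = m * (1113644 - m) := rfl
          rw [e1, e2, show 1113644 - (1113644 - m) = m by omega, Nat.mul_comm]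
        have hlt : 1113644 - m < t := by
          by_contra hc
          have := nn_mono (not_lt.mp hc) (show 1113644 - m ≤ 556822 by omega)
          rw [hsym] at this
          exact absurd hi (not_lt.mpr this)
        have hR := ih (1113644 - m) hlt (by omega) (by omega)
        exact R_symm (h_mirror _ _ (by omega)) hR

/-- every orbit reaches `0` -/
theorem R_all (y : ZMod P) : R y := by
  haveI : NeZero P := ⟨by norm_num⟩
  have hy : ((y.val : ℕ) : ZMod P) = y := ZMod.natCast_zmod_val y
  have hlt : y.val < 1113643 := ZMod.val_lt y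
  rcases Nat.eq_zero_or_pos y.val with h0 | hpos
  · rw [h0] at hy
    exact ⟨0, by rw [← hy]; simp⟩
  · rw [← hy]
    rcases Nat.lt_or_ge y.val 556823 with h3 | h3
    · exact R_half _ hpos h3
    · exact R_symm (h_mirror (1113644 - y.val) y.val (by omega)) (R_half _ (by omega) (by omega))

end Pool.Agent.R342.Conn
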